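import Pool.Agent.Q261.TY.LOWXa

/-!
# Project TY, job LOWX: the number of separated characters from several conjugate points
-/

set_option autoImplicit false
set_option maxHeartbeats 400000

namespace Pool.Agent.Q261.TY

open MvPolynomial
open Pool.Agent.Q6.TY

/-- the vector of a function to a grid -/
noncomputable def grd {t : ℕ} (X : Finset (Fin t → ℂ)) (J : ℕ) (η : ℝ)
    (f : {q // q ∈ X} → Fin (J + 1) × Fin (J + 1)) : (Fin t → ℂ) → ℂ :=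
  open Classical in fun q => if h : q ∈ X then
    ⟨(((f ⟨q, h⟩).1 : ℕ) : ℝ) * η, (((f ⟨q, h⟩).2 : ℕ) : ℝ) * η⟩ else 0

lemma grd_apply {t : ℕ} (X : Finset (Fin t → ℂ)) (J : ℕ) (η : ℝ)
    (f : {q // q ∈ X} → Fin (J + 1) × Fin (J + 1)) (q : Fin t → ℂ) (h : q ∈ X) :
    grd X J η f q = ⟨(((f ⟨q, h⟩).1 : ℕ) : ℝ) * η, (((f ⟨q, h⟩).2 : ℕ) : ℝ) * η⟩ := by
  unfold grd
  rw [dif_pos h]

lemma grd_sub_le {t : ℕ} (X : Finset (Fin t → ℂ)) (J : ℕ) (η : ℝ) (hη : 0 < η)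
    (f g : {q // q ∈ X} → Fin (J + 1) × Fin (J + 1)) (q : Fin t → ℂ) (h : q ∈ X) :
    ‖(grd X J η f - grd X J η g) q‖ ≤ 2 * (J * η) := by
  rw [Pi.sub_apply, grd_apply X J η f q h, grd_apply X J η g q h]
  obtain ⟨d, hd⟩ : ∃ d : ℂ, d = (⟨(((f ⟨q, h⟩).1 : ℕ) : ℝ) * η, (((f ⟨q, h⟩).2 : ℕ) : ℝ) * η⟩ : ℂ) -
    ⟨(((g ⟨q, h⟩).1 : ℕ) : ℝ) * η, (((g ⟨q, h⟩).2 : ℕ) : ℝ) * η⟩ := ⟨_, rfl⟩
  rw [← hd]
  have hbd : ∀ a b : Fin (J + 1), |((a : ℕ) : ℝ) * η - ((b : ℕ) : ℝ) * η| ≤ J * η := by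
    intro a b
    have ha' : ((a : ℕ) : ℝ) ≤ J := by exact_mod_cast Nat.lt_succ_iff.1 a.2
    have hb' : ((b : ℕ) : ℝ) ≤ J := by exact_mod_cast Nat.lt_succ_iff.1 b.2
    have h1 : ((a : ℕ) : ℝ) * η ≤ J * η := mul_le_mul_of_nonneg_right ha' hη.le
    have h2 : ((b : ℕ) : ℝ) * η ≤ J * η := mul_le_mul_of_nonneg_right hb' hη.le
    have h3 : 0 ≤ ((a : ℕ) : ℝ) * η := by positivity
    have h4 : 0 ≤ ((b : ℕ) : ℝ) * η := by positivity
    rw [abs_le]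
    constructor <;> linarith
  have h1 := Complex.norm_le_abs_re_add_abs_im d
  have hre : |d.re| ≤ J * η := by
    rw [hd, Complex.sub_re]
    exact hbd _ _
  have him : |d.im| ≤ J * η := by
    rw [hd, Complex.sub_im]
    exact hbd _ _
  linarith

lemma grd_ge {t : ℕ} (X : Finset (Fin t → ℂ)) (J : ℕ) (η : ℝ) (hη : 0 < η)
    (f g : {q // q ∈ X} → Fin (J + 1) × Fin (J + 1)) (hfg : f ≠ g) :
    ∃ q ∈ X, η ≤ ‖(grd X J η f - grd X J η g) q‖ := by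
  obtain ⟨⟨q, h⟩, hq⟩ := Function.ne_iff.1 hfg
  refine ⟨q, h, ?_⟩
  rw [Pi.sub_apply, grd_apply X J η f q h, grd_apply X J η g q h]
  obtain ⟨d, hd⟩ : ∃ d : ℂ, d = (⟨(((f ⟨q, h⟩).1 : ℕ) : ℝ) * η, (((f ⟨q, h⟩).2 : ℕ) : ℝ) * η⟩ : ℂ) -
    ⟨(((g ⟨q, h⟩).1 : ℕ) : ℝ) * η, (((g ⟨q, h⟩).2 : ℕ) : ℝ) * η⟩ := ⟨_, rfl⟩
  rw [← hd]
  have hint : ∀ a b : Fin (J + 1), a ≠ b → η ≤ |((a : ℕ) : ℝ) * η - ((b : ℕ) : ℝ) * η| := by
    intro a b hab
    have hab' : (a : ℕ) ≠ b := fun h => hab (Fin.ext h)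
    have h2 : (1 : ℤ) ≤ |((a : ℕ) : ℤ) - (b : ℕ)| := Int.one_le_abs (by omega)
    have h3 : (1 : ℝ) ≤ |((a : ℕ) : ℝ) - (b : ℕ)| := by exact_mod_cast h2
    rw [← sub_mul, abs_mul, abs_of_pos hη]
    nlinarith
  by_cases h1 : (f ⟨q, h⟩).1 = (g ⟨q, h⟩).1
  · have h2 : (f ⟨q, h⟩).2 ≠ (g ⟨q, h⟩).2 := fun h' => hq (Prod.ext h1 h')
    refine le_trans ?_ (Complex.abs_im_le_norm d)
    rw [hd, Complex.sub_im]
    exact hint _ _ h2
  · refine le_trans ?_ (Complex.abs_re_le_norm d)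
    rw [hd, Complex.sub_re]
    exact hint _ _ h1

theorem task_LOWX : Pool.Agent.Q6.TY.S_LOWX := by
  classical
  intro t p X i₀ B hB hX hXB
  obtain ⟨c₀, C₁, hC₁, hb⟩ := coef_bound X i₀ fun q hq => (hX q hq).2
  obtain ⟨R, hR1, hR⟩ : ∃ R : ℝ, 1 ≤ R ∧ ∀ q ∈ X, ∀ i, ‖q i‖ ≤ R := by
    refine ⟨1 + ∑ q ∈ X, ∑ i, ‖q i‖, ?_, fun q hq i => ?_⟩
    · have : 0 ≤ ∑ q ∈ X, ∑ i, ‖q i‖ := Finset.sum_nonneg fun q _ => Finset.sum_nonneg fun i _ => norm_nonneg _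
      linarith
    · have h1 : ‖q i‖ ≤ ∑ i, ‖q i‖ :=
        Finset.single_le_sum (f := fun i => ‖q i‖) (fun _ _ => norm_nonneg _) (Finset.mem_univ i)
      have h2 : ∑ i, ‖q i‖ ≤ ∑ q ∈ X, ∑ i, ‖q i‖ :=
        Finset.single_le_sum (f := fun q : Fin t → ℂ => ∑ i, ‖q i‖)
          (fun _ _ => Finset.sum_nonneg fun _ _ => norm_nonneg _) hq
      linarith
  have hR0 : 0 < R := by linarith
  have hC0 : 0 < C₁ := by linarith
  have hB0 : 0 < B := by linarith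
  obtain ⟨r, hr⟩ : ∃ r : ℕ, r = X.card := ⟨_, rfl⟩
  obtain ⟨δ, hδ⟩ : ∃ δ : ℝ, δ = 1 / (2 * (r + 1) * R ^ c₀) := ⟨_, rfl⟩
  have hδ0 : 0 < δ := by rw [hδ]; positivity
  have hδ1 : X.card * (δ * R ^ c₀) ≤ 1 / 2 := by
    rw [← hr, hδ]
    have h1 : (r : ℝ) * (1 / (2 * (r + 1) * R ^ c₀) * R ^ c₀) = r / (r + 1) / 2 := by
      field_simp
    rw [h1]
    have h2 : (r : ℝ) / (r + 1) ≤ 1 := by
      rw [div_le_one (by positivity)]
      linarith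
    linarith
  obtain ⟨ε₁, hε₁⟩ : ∃ ε₁ : ℝ, ε₁ = 1 / (2 * (r + 1) * (C₁ * R ^ (c₀ + 1))) := ⟨_, rfl⟩
  have hε₁0 : 0 < ε₁ := by rw [hε₁]; positivity
  obtain ⟨a, ha⟩ : ∃ a : ℝ, a = min 1 (δ / (8 * C₁ * ε₁)) := ⟨_, rfl⟩
  have ha0 : 0 < a := by
    rw [ha]
    exact lt_min one_pos (by positivity)
  have ha1 : a ≤ 1 := by rw [ha]; exact min_le_left _ _
  have ha2 : a ≤ δ / (8 * C₁ * ε₁) := by rw [ha]; exact min_le_right _ _
  refine ⟨ε₁, hε₁0, (a / B ^ c₀) ^ (2 * r), by positivity, fun ε hε hε1 n => ?_⟩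
  rcases Nat.lt_or_ge n c₀ with hn | hn
  · refine ⟨1, ?_, ?_⟩
    · rw [← hr, mul_comm (2 * r) n, pow_mul B n (2 * r), ← mul_pow, Nat.cast_one]
      refine pow_le_one₀ (by positivity) ?_
      rw [div_mul_eq_mul_div, div_le_one (by positivity)]
      have h1 : B ^ n ≤ B ^ c₀ := pow_le_pow_right₀ hB.le hn.le
      have h2 : 0 < B ^ n := by positivity
      nlinarith
    · have := sep_of (I := mx p) (n := n) hε ({0} : Finset ℕ) (fun _ => chi p 0)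
        (fun _ _ => chi_kill p 0) (fun i hi j hj hij => by
          rw [Finset.mem_singleton] at hi hj
          exact absurd (hi.trans hj.symm) hij)
      simpa using this
  have hεX : X.card * (C₁ * ε * R ^ (c₀ + 1)) ≤ 1 / 2 := by
    rw [← hr]
    have h1 : (r : ℝ) * (C₁ * ε * R ^ (c₀ + 1)) ≤ (r + 1) * (C₁ * ε₁ * R ^ (c₀ + 1)) := by
      refine mul_le_mul (by linarith) ?_ (by positivity) (by positivity)
      exact mul_le_mul_of_nonneg_right (mul_le_mul_of_nonneg_left hε1 hC0.le) (by positivity)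
    refine h1.trans (le_of_eq ?_)
    rw [hε₁]
    field_simp
  obtain ⟨η, hη⟩ : ∃ η : ℝ, η = 2 * C₁ * ε / B ^ (n - c₀) := ⟨_, rfl⟩
  have hη0 : 0 < η := by rw [hη]; positivity
  obtain ⟨J, hJ⟩ : ∃ J : ℕ, J = ⌊δ / (4 * η)⌋₊ := ⟨_, rfl⟩
  have hJ1 : (J : ℝ) ≤ δ / (4 * η) := by rw [hJ]; exact Nat.floor_le (by positivity)
  have hJ2 : δ / (4 * η) < J + 1 := by rw [hJ]; exact Nat.lt_floor_add_one _
  have hJη : (J : ℝ) * η ≤ δ / 4 := by
    calc (J : ℝ) * η ≤ δ / (4 * η) * η := mul_le_mul_of_nonneg_right hJ1 hη0.le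
      _ = δ / 4 := by field_simp
  refine ⟨((J + 1) * (J + 1)) ^ r, ?_, ?_⟩
  · have h1 : a / B ^ c₀ * B ^ n ≤ J + 1 := by
      refine le_trans ?_ hJ2.le
      have h2 : B ^ n = B ^ (n - c₀) * B ^ c₀ := by rw [← pow_add]; congr 1; omega
      have h3 : a / B ^ c₀ * B ^ n = a * B ^ (n - c₀) := by
        rw [h2]; field_simp
      rw [h3, hη]
      have h4 : δ / (4 * (2 * C₁ * ε / B ^ (n - c₀))) = δ / (8 * C₁ * ε) * B ^ (n - c₀) := by
        field_simp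
        ring
      rw [h4]
      refine mul_le_mul_of_nonneg_right (ha2.trans ?_) (by positivity)
      exact div_le_div_of_nonneg_left hδ0.le (by positivity)
        (mul_le_mul_of_nonneg_left hε1 (by positivity))
    rw [← hr, mul_comm (2 * r) n, pow_mul B n (2 * r), ← mul_pow]
    push_cast
    rw [← pow_two, ← pow_mul]
    exact pow_le_pow_left₀ (by positivity) h1 _
  · have hcard : (Finset.univ : Finset ({q // q ∈ X} → Fin (J + 1) × Fin (J + 1))).card =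
        ((J + 1) * (J + 1)) ^ r := by
      rw [Finset.card_univ, Fintype.card_fun, Fintype.card_prod, Fintype.card_fin,
        Fintype.card_coe, ← hr]
    rw [← hcard]
    refine sep_of hε Finset.univ (fun f => chs X (grd X J η f))
      (fun f _ => chs_kill p X _ fun q hq => (hX q hq).1) ?_
    intro f _ g _ hfg
    by_contra hcon
    obtain ⟨v, hv⟩ : ∃ v : (Fin t → ℂ) → ℂ, v = grd X J η f - grd X J η g := ⟨_, rfl⟩
    have h1 : ∀ u : Fin t →₀ ℕ, u.degree ≤ n → ‖((RR X v u : ℝ) : UnitAddCircle)‖ < ε := by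
      intro u hu
      by_contra hlt
      push Not at hlt
      refine hcon ⟨u, hu, ?_⟩
      rw [chs_mon, chs_mon, ← AddCircle.coe_sub, RR_sub, ← hv]
      exact hlt
    have h2 : ∀ q ∈ X, ‖v q‖ ≤ δ := by
      intro q hq
      rw [hv]
      refine (grd_sub_le X J η hη0 f g q hq).trans ?_
      linarith
    have h3 := small_of X c₀ C₁ R δ ε hC₁ hb hR1 hR hδ0.le hδ1 hε hεX v h2 n h1
    obtain ⟨q, hq, hq1⟩ := grd_ge X J η hη0 f g hfg
    rw [← hv] at hq1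
    obtain ⟨m, hm⟩ := hXB q hq
    have h4 := hb (fun y => v y * mon y (Finsupp.single m (n - c₀))) ε hε.le (by
      intro u hu
      rw [← RR_add]
      refine (h3 _ ?_).le
      rw [map_add, deg_single]
      omega) q hq
    rw [norm_mul, mon_single, norm_pow] at h4
    have h5 : B ^ (n - c₀) ≤ ‖q m‖ ^ (n - c₀) := pow_le_pow_left₀ hB0.le hm _
    have h6 : η * B ^ (n - c₀) ≤ C₁ * ε := by
      refine le_trans ?_ h4
      exact mul_le_mul hq1 h5 (by positivity) (norm_nonneg _)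
    have h7 : η * B ^ (n - c₀) = 2 * (C₁ * ε) := by
      rw [hη]; field_simp
    rw [h7] at h6
    have h8 : 0 < C₁ * ε := by positivity
    linarith

end Pool.Agent.Q261.TY
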