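import Pool.Agent.Q261.TY.Low
import Pool.Agent.Q6.TY.Stm3

/-!
# Project TY, job LOWX (first part): the characters of several points
-/

set_option autoImplicit false
set_option maxHeartbeats 400000

namespace Pool.Agent.Q261.TY

open MvPolynomial
open Pool.Agent.Q6.TY

/-- the monomial function -/
noncomputable def mon {t : ℕ} (q : Fin t → ℂ) (u : Fin t →₀ ℕ) : ℂ := ∏ i, q i ^ u i

lemma evh_mon {t : ℕ} (q : Fin t → ℂ) (u : Fin t →₀ ℕ) : evh q (monomial u 1) = mon q u := by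
  have h : evh q (monomial u 1) = aeval q (monomial u (1 : ℤ)) := rfl
  rw [h, aeval_monomial, map_one, one_mul, Finsupp.prod_fintype _ _ (fun i => pow_zero _)]
  rfl

lemma mon_add {t : ℕ} (q : Fin t → ℂ) (u v : Fin t →₀ ℕ) : mon q (u + v) = mon q u * mon q v := by
  unfold mon
  rw [← Finset.prod_mul_distrib]
  refine Finset.prod_congr rfl fun i _ => ?_
  rw [Finsupp.add_apply, pow_add]

lemma mon_le {t : ℕ} (q : Fin t → ℂ) (R : ℝ) (hR : ∀ i, ‖q i‖ ≤ R) (u : Fin t →₀ ℕ) :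
    ‖mon q u‖ ≤ R ^ u.degree := by
  unfold mon
  rw [norm_prod, Finsupp.degree_eq_sum, ← Finset.prod_pow_eq_pow_sum]
  refine Finset.prod_le_prod (fun i _ => norm_nonneg _) fun i _ => ?_
  rw [norm_pow]
  exact pow_le_pow_left₀ (norm_nonneg _) (hR i) _

lemma mon_single {t : ℕ} (q : Fin t → ℂ) (m : Fin t) (i : ℕ) :
    mon q (Finsupp.single m i) = q m ^ i := by
  rw [← evh_mon, evh_pow]

/-- the real functional -/
noncomputable def RR {t : ℕ} (X : Finset (Fin t → ℂ)) (v : (Fin t → ℂ) → ℂ) (u : Fin t →₀ ℕ) : ℝ :=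
  ∑ q ∈ X, (v q * mon q u).re

lemma RR_add {t : ℕ} (X : Finset (Fin t → ℂ)) (v : (Fin t → ℂ) → ℂ) (u w : Fin t →₀ ℕ) :
    RR X v (u + w) = RR X (fun q => v q * mon q u) w := by
  unfold RR
  refine Finset.sum_congr rfl fun q _ => ?_
  rw [mon_add, mul_assoc]

lemma RR_sub {t : ℕ} (X : Finset (Fin t → ℂ)) (v w : (Fin t → ℂ) → ℂ) (u : Fin t →₀ ℕ) :
    RR X v u - RR X w u = RR X (v - w) u := by
  unfold RR
  rw [← Finset.sum_sub_distrib]
  refine Finset.sum_congr rfl fun q _ => ?_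
  rw [Pi.sub_apply, sub_mul, Complex.sub_re]

lemma RR_le {t : ℕ} (X : Finset (Fin t → ℂ)) (v : (Fin t → ℂ) → ℂ) (u : Fin t →₀ ℕ) (s R : ℝ)
    (hs : ∀ q ∈ X, ‖v q‖ ≤ s) (hR1 : 0 ≤ R) (hR : ∀ q ∈ X, ∀ i, ‖q i‖ ≤ R) :
    |RR X v u| ≤ X.card * (s * R ^ u.degree) := by
  unfold RR
  refine (Finset.abs_sum_le_sum_abs _ _).trans ?_
  rw [← nsmul_eq_mul]
  refine Finset.sum_le_card_nsmul _ _ _ fun q hq => ?_
  refine (Complex.abs_re_le_norm _).trans ?_
  rw [norm_mul]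
  exact mul_le_mul (hs q hq) (mon_le q R (hR q hq) u) (norm_nonneg _)
    ((norm_nonneg _).trans (hs q hq))

/-- the characters -/
noncomputable def chs {t : ℕ} (X : Finset (Fin t → ℂ)) (v : (Fin t → ℂ) → ℂ) : P t →+ UnitAddCircle :=
  ∑ q ∈ X, chi q (v q)

lemma chs_mon {t : ℕ} (X : Finset (Fin t → ℂ)) (v : (Fin t → ℂ) → ℂ) (u : Fin t →₀ ℕ) :
    chs X v (monomial u 1) = ((RR X v u : ℝ) : UnitAddCircle) := by
  unfold chs RR
  rw [AddMonoidHom.finset_sum_apply]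
  have h : ∀ g : (Fin t → ℂ) → ℝ, ((∑ q ∈ X, g q : ℝ) : UnitAddCircle) =
      ∑ q ∈ X, ((g q : ℝ) : UnitAddCircle) := by
    intro g
    exact map_sum (QuotientAddGroup.mk' (AddSubgroup.zmultiples (1 : ℝ))) g X
  rw [h]
  refine Finset.sum_congr rfl fun q _ => ?_
  rw [chi_apply, evh_mon]

lemma chs_kill {t : ℕ} (p : Fin t → ℂ) (X : Finset (Fin t → ℂ)) (v : (Fin t → ℂ) → ℂ)
    (hX : ∀ q ∈ X, mx q = mx p) : ∀ f ∈ mx p, chs X v f = 0 := by
  intro f hf
  unfold chs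
  rw [AddMonoidHom.finset_sum_apply]
  refine Finset.sum_eq_zero fun q hq => ?_
  refine chi_kill q (v q) f ?_
  rw [hX q hq]
  exact hf

/-- the complex conjugate point -/
noncomputable def cj {t : ℕ} (q : Fin t → ℂ) : Fin t → ℂ := fun i => (starRingEnd ℂ) (q i)

lemma mon_cj {t : ℕ} (q : Fin t → ℂ) (u : Fin t →₀ ℕ) :
    (starRingEnd ℂ) (mon q u) = mon (cj q) u := by
  unfold mon cj
  rw [map_prod]
  refine Finset.prod_congr rfl fun i _ => ?_
  rw [map_pow]

lemma interp {t : ℕ} (q : Fin t → ℂ) (Y : Finset (Fin t → ℂ)) (hq : q ∉ Y) :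
    ∃ L : MvPolynomial (Fin t) ℂ, eval q L = 1 ∧ ∀ y ∈ Y, eval y L = 0 := by
  classical
  have h : ∀ y : Fin t → ℂ, ∃ L : MvPolynomial (Fin t) ℂ, y ≠ q → eval q L = 1 ∧ eval y L = 0 := by
    intro y
    by_cases hy : y = q
    · exact ⟨0, fun h => absurd hy h⟩
    · obtain ⟨i, hi⟩ := Function.ne_iff.1 hy
      refine ⟨(X i - C (y i)) * C ((q i - y i)⁻¹), fun _ => ⟨?_, ?_⟩⟩
      · rw [map_mul, map_sub, eval_X, eval_C, eval_C]
        exact mul_inv_cancel₀ (sub_ne_zero.2 fun h => hi h.symm)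
      · rw [map_mul, map_sub, eval_X, eval_C, eval_C, sub_self, zero_mul]
  choose L hL using h
  refine ⟨∏ y ∈ Y, L y, ?_, ?_⟩
  · rw [map_prod]
    exact Finset.prod_eq_one fun y hy => (hL y fun h => hq (h ▸ hy)).1
  · intro y hy
    rw [map_prod]
    exact Finset.prod_eq_zero hy (hL y fun h => hq (h ▸ hy)).2

lemma dual_sum {t : ℕ} (X : Finset (Fin t → ℂ)) (v : (Fin t → ℂ) → ℂ) (L : MvPolynomial (Fin t) ℂ) :
    ∑ b ∈ L.support, coeff b L * ((RR X v b : ℝ) : ℂ) =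
      (∑ q ∈ X, (v q * eval q L + (starRingEnd ℂ) (v q) * eval (cj q) L)) / 2 := by
  have h1 : ∀ b, ((RR X v b : ℝ) : ℂ) =
      (∑ q ∈ X, (v q * mon q b + (starRingEnd ℂ) (v q) * mon (cj q) b)) / 2 := by
    intro b
    unfold RR
    rw [Complex.ofReal_sum, Finset.sum_div]
    refine Finset.sum_congr rfl fun q _ => ?_
    rw [Complex.re_eq_add_conj, map_mul, mon_cj]
  have h2 : ∀ q : Fin t → ℂ, eval q L = ∑ b ∈ L.support, coeff b L * mon q b := by
    intro q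
    rw [eval_eq']
    rfl
  simp only [h1, h2]
  rw [Finset.sum_div]
  simp only [Finset.mul_sum, mul_div_assoc', Finset.sum_div]
  rw [Finset.sum_comm]
  refine Finset.sum_congr rfl fun q _ => ?_
  rw [← Finset.sum_add_distrib, Finset.sum_div]
  refine Finset.sum_congr rfl fun b _ => ?_
  ring

/-- (a) the coefficients are bounded by the values of the real functional in small degrees -/
lemma coef_bound {t : ℕ} (X : Finset (Fin t → ℂ)) (i₀ : Fin t) (hX : ∀ q ∈ X, 0 < (q i₀).im) :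
    ∃ c₀ : ℕ, ∃ C₁ : ℝ, 1 ≤ C₁ ∧ ∀ (v : (Fin t → ℂ) → ℂ) (s : ℝ), 0 ≤ s →
      (∀ u : Fin t →₀ ℕ, u.degree ≤ c₀ → |RR X v u| ≤ s) → ∀ q ∈ X, ‖v q‖ ≤ C₁ * s := by
  classical
  have h : ∀ q : Fin t → ℂ, ∃ L : MvPolynomial (Fin t) ℂ, q ∈ X → eval q L = 1 ∧
      (∀ y ∈ X, y ≠ q → eval y L = 0) ∧ ∀ y ∈ X, eval (cj y) L = 0 := by
    intro q
    by_cases hq : q ∈ X
    · obtain ⟨L, h1, h2⟩ := interp q (X.erase q ∪ X.image cj) (by
        intro h
        rcases Finset.mem_union.1 h with h | h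
        · exact (Finset.mem_erase.1 h).1 rfl
        · obtain ⟨y, hy, hyq⟩ := Finset.mem_image.1 h
          have h3 := hX y hy
          have h4 := hX q hq
          rw [← hyq] at h4
          unfold cj at h4
          rw [Complex.conj_im] at h4
          linarith)
      refine ⟨L, fun _ => ⟨h1, fun y hy hyq => h2 y ?_, fun y hy => h2 _ ?_⟩⟩
      · exact Finset.mem_union_left _ (Finset.mem_erase.2 ⟨hyq, hy⟩)
      · exact Finset.mem_union_right _ (Finset.mem_image_of_mem _ hy)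
    · exact ⟨0, fun h => absurd h hq⟩
  choose L hL using h
  refine ⟨∑ q ∈ X, (L q).totalDegree, 1 + ∑ q ∈ X, 2 * ∑ b ∈ (L q).support, ‖coeff b (L q)‖, ?_,
    fun v s hs hv q hq => ?_⟩
  · have : 0 ≤ ∑ q ∈ X, 2 * ∑ b ∈ (L q).support, ‖coeff b (L q)‖ :=
      Finset.sum_nonneg fun q _ => mul_nonneg zero_le_two (Finset.sum_nonneg fun b _ => norm_nonneg _)
    linarith
  · obtain ⟨h1, h2, h3⟩ := hL q hq
    have h4 := dual_sum X v (L q)
    have h5 : ∑ y ∈ X, (v y * eval y (L q) + (starRingEnd ℂ) (v y) * eval (cj y) (L q)) = v q := by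
      rw [Finset.sum_eq_single_of_mem q hq]
      · rw [h1, h3 q hq, mul_one, mul_zero, add_zero]
      · intro y hy hyq
        rw [h2 y hy hyq, h3 y hy, mul_zero, mul_zero, add_zero]
    rw [h5] at h4
    have h6 : v q = 2 * ∑ b ∈ (L q).support, coeff b (L q) * ((RR X v b : ℝ) : ℂ) := by
      rw [h4]; ring
    have h7 : ‖∑ b ∈ (L q).support, coeff b (L q) * ((RR X v b : ℝ) : ℂ)‖ ≤
        (∑ b ∈ (L q).support, ‖coeff b (L q)‖) * s := by
      refine (norm_sum_le _ _).trans ?_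
      rw [Finset.sum_mul]
      refine Finset.sum_le_sum fun b hb => ?_
      rw [norm_mul, Complex.norm_real, Real.norm_eq_abs]
      refine mul_le_mul_of_nonneg_left (hv b ?_) (norm_nonneg _)
      have h8 : b.degree ≤ (L q).totalDegree := le_totalDegree hb
      exact h8.trans (Finset.single_le_sum (f := fun q => (L q).totalDegree)
        (fun _ _ => Nat.zero_le _) hq)
    have h9 : 2 * ∑ b ∈ (L q).support, ‖coeff b (L q)‖ ≤
        ∑ q ∈ X, 2 * ∑ b ∈ (L q).support, ‖coeff b (L q)‖ :=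
      Finset.single_le_sum (f := fun q => 2 * ∑ b ∈ (L q).support, ‖coeff b (L q)‖)
        (fun q _ => mul_nonneg zero_le_two (Finset.sum_nonneg fun b _ => norm_nonneg _)) hq
    calc ‖v q‖ = 2 * ‖∑ b ∈ (L q).support, coeff b (L q) * ((RR X v b : ℝ) : ℂ)‖ := by
          rw [h6, norm_mul, Complex.norm_ofNat]
      _ ≤ 2 * ((∑ b ∈ (L q).support, ‖coeff b (L q)‖) * s) := by linarith
      _ = (2 * ∑ b ∈ (L q).support, ‖coeff b (L q)‖) * s := by ring
      _ ≤ (∑ q ∈ X, 2 * ∑ b ∈ (L q).support, ‖coeff b (L q)‖) * s :=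
          mul_le_mul_of_nonneg_right h9 hs
      _ ≤ (1 + ∑ q ∈ X, 2 * ∑ b ∈ (L q).support, ‖coeff b (L q)‖) * s :=
          mul_le_mul_of_nonneg_right (by linarith) hs

lemma split_deg {t : ℕ} : ∀ (k : ℕ) (u : Fin t →₀ ℕ), k ≤ u.degree →
    ∃ u' b : Fin t →₀ ℕ, u = u' + b ∧ b.degree = k := by
  intro k
  induction k with
  | zero => exact fun u _ => ⟨u, 0, (add_zero u).symm, by simp⟩
  | succ k ih =>
    intro u hu
    obtain ⟨u', b, h1, h2⟩ := ih u (by omega)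
    have h3 : 0 < u'.degree := by
      rw [h1, map_add, h2] at hu
      omega
    have h4 : ∃ i, 0 < u' i := by
      by_contra hcon
      push Not at hcon
      rw [Finsupp.degree_eq_sum] at h3
      have h5 : ∑ i, u' i = 0 := Finset.sum_eq_zero fun i _ => Nat.le_zero.1 (hcon i)
      omega
    obtain ⟨i, hi⟩ := h4
    refine ⟨u' - Finsupp.single i 1, b + Finsupp.single i 1, ?_, ?_⟩
    · rw [h1, add_comm b, ← add_assoc]
      congr 1
      exact (tsub_add_cancel_of_le (Finsupp.single_le_iff.2 hi)).symm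
    · rw [map_add, h2, deg_single]

/-- (b) and (c): a character which is small in all degrees up to `n` comes from a vector which is
very small -/
lemma small_of {t : ℕ} (X : Finset (Fin t → ℂ)) (c₀ : ℕ) (C₁ R δ ε : ℝ) (hC₁ : 1 ≤ C₁)
    (hb : ∀ (v : (Fin t → ℂ) → ℂ) (s : ℝ), 0 ≤ s →
      (∀ u : Fin t →₀ ℕ, u.degree ≤ c₀ → |RR X v u| ≤ s) → ∀ q ∈ X, ‖v q‖ ≤ C₁ * s)
    (hR1 : 1 ≤ R) (hR : ∀ q ∈ X, ∀ i, ‖q i‖ ≤ R) (hδ0 : 0 ≤ δ)
    (hδ : X.card * (δ * R ^ c₀) ≤ 1 / 2) (hε0 : 0 < ε)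
    (hε : X.card * (C₁ * ε * R ^ (c₀ + 1)) ≤ 1 / 2) (v : (Fin t → ℂ) → ℂ)
    (hv : ∀ q ∈ X, ‖v q‖ ≤ δ) (n : ℕ)
    (hn : ∀ u : Fin t →₀ ℕ, u.degree ≤ n → ‖((RR X v u : ℝ) : UnitAddCircle)‖ < ε) :
    ∀ u : Fin t →₀ ℕ, u.degree ≤ n → |RR X v u| < ε := by
  have key : ∀ d : ℕ, ∀ u : Fin t →₀ ℕ, u.degree = d → d ≤ n → |RR X v u| < ε := by
    intro d
    induction d using Nat.strong_induction_on with
    | _ d ih =>
      intro u hu hdn
      have h1 : |RR X v u| ≤ 1 / 2 := by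
        rcases Nat.lt_or_ge c₀ d with hd | hd
        · obtain ⟨u', b, hub, hbd⟩ := split_deg (c₀ + 1) u (by omega)
          have h2 : u'.degree + (c₀ + 1) = d := by
            rw [← hu, hub, map_add, hbd]
          have h3 : ∀ q ∈ X, ‖v q * mon q u'‖ ≤ C₁ * ε := by
            refine hb (fun q => v q * mon q u') ε hε0.le ?_
            intro b' hb'
            rw [← RR_add]
            refine (ih (u' + b').degree ?_ (u' + b') rfl ?_).le
            · rw [map_add]; omega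
            · rw [map_add]; omega
          rw [hub, RR_add]
          have h4 := RR_le X (fun q => v q * mon q u') b (C₁ * ε) R h3 (by linarith) hR
          rw [hbd] at h4
          exact h4.trans hε
        · have h4 := RR_le X v u δ R hv (by linarith) hR
          refine h4.trans (le_trans ?_ hδ)
          refine mul_le_mul_of_nonneg_left (mul_le_mul_of_nonneg_left ?_ hδ0) (Nat.cast_nonneg _)
          exact pow_le_pow_right₀ hR1 (by omega)
      have h2 := hn u (by omega)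
      rwa [(AddCircle.norm_coe_eq_abs_iff (1 : ℝ) one_ne_zero).2 (by rw [abs_one]; exact h1)] at h2
  exact fun u hu => key _ u rfl hu

end Pool.Agent.Q261.TY
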