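import Pool.Agent.Q6.TY.Stm

/-!
# Project TY, jobs LOWR and LOWC
-/

set_option autoImplicit false
set_option maxHeartbeats 400000

namespace Pool.Agent.Q261.TY

open MvPolynomial
open Pool.Agent.Q6.TY

/-- the character `f ↦ Re (z f(p))` modulo one -/
noncomputable def chi {t : ℕ} (p : Fin t → ℂ) (z : ℂ) : P t →+ UnitAddCircle :=
  ((QuotientAddGroup.mk' (AddSubgroup.zmultiples (1 : ℝ))).comp Complex.reAddGroupHom).comp
    ((AddMonoidHom.mulLeft z).comp (evh p).toAddMonoidHom)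

lemma chi_apply {t : ℕ} (p : Fin t → ℂ) (z : ℂ) (f : P t) :
    chi p z f = (((z * evh p f).re : ℝ) : UnitAddCircle) := rfl

lemma chi_kill {t : ℕ} (p : Fin t → ℂ) (z : ℂ) : ∀ f ∈ mx p, chi p z f = 0 := by
  intro f hf
  have h : evh p f = 0 := RingHom.mem_ker.1 hf
  rw [chi_apply, h, mul_zero, Complex.zero_re, AddCircle.coe_zero]

lemma evh_pow {t : ℕ} (p : Fin t → ℂ) (m : Fin t) (i : ℕ) :
    evh p (monomial (Finsupp.single m i) 1) = p m ^ i := by
  rw [← X_pow_eq_monomial, map_pow]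
  congr 1
  exact aeval_X p m

lemma evh_pow_mul {t : ℕ} (p : Fin t → ℂ) (m l : Fin t) (i : ℕ) :
    evh p (monomial (Finsupp.single m i + Finsupp.single l 1) 1) = p m ^ i * p l := by
  have h : (monomial (Finsupp.single m i + Finsupp.single l 1) (1 : ℤ)) =
      monomial (Finsupp.single m i) 1 * monomial (Finsupp.single l 1) 1 := by
    rw [monomial_mul, one_mul]
  rw [h, map_mul, evh_pow, evh_pow, pow_one]

lemma apart_of {t : ℕ} (p : Fin t → ℂ) {n : ℕ} {ε : ℝ} {z z' : ℂ} (u : Fin t →₀ ℕ)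
    (hu : u.degree ≤ n) (h1 : |((z - z') * evh p (monomial u 1)).re| ≤ 1 / 2)
    (h2 : ε ≤ |((z - z') * evh p (monomial u 1)).re|) : Apart n ε (chi p z) (chi p z') := by
  refine ⟨u, hu, ?_⟩
  rw [chi_apply, chi_apply, ← AddCircle.coe_sub]
  have e : (z * evh p (monomial u 1)).re - (z' * evh p (monomial u 1)).re =
      ((z - z') * evh p (monomial u 1)).re := by
    rw [sub_mul, Complex.sub_re]
  rw [e, (AddCircle.norm_coe_eq_abs_iff (1 : ℝ) one_ne_zero).2 (by rw [abs_one]; exact h1)]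
  exact h2

lemma sep_of {t : ℕ} {I : Ideal (P t)} {n : ℕ} {ε : ℝ} (hε : 0 < ε) {ι : Type} (S : Finset ι)
    (c : ι → P t →+ UnitAddCircle) (hk : ∀ i ∈ S, ∀ f ∈ I, c i f = 0)
    (ha : ∀ i ∈ S, ∀ j ∈ S, i ≠ j → Apart n ε (c i) (c j)) : HasSep I n ε S.card := by
  classical
  have hinj : Set.InjOn c S := by
    intro i hi j hj hij
    by_contra hne
    obtain ⟨u, -, hu⟩ := ha i hi j hj hne
    rw [hij, sub_self, norm_zero] at hu
    linarith
  refine ⟨S.image c, Finset.card_image_of_injOn hinj, ?_, ?_⟩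
  · intro φ hφ
    obtain ⟨i, hi, rfl⟩ := Finset.mem_image.1 hφ
    exact hk i hi
  · intro φ hφ ψ hψ hne
    obtain ⟨i, hi, rfl⟩ := Finset.mem_image.1 hφ
    obtain ⟨j, hj, rfl⟩ := Finset.mem_image.1 hψ
    exact ha i hi j hj fun h => hne (by rw [h])

lemma exists_max (Q : ℕ → Prop) (h0 : Q 0) (N : ℕ) : ∃ i ≤ N, Q i ∧ (i = N ∨ ¬ Q (i + 1)) := by
  induction N with
  | zero => exact ⟨0, le_rfl, h0, Or.inl rfl⟩
  | succ N ih =>
    obtain ⟨i, hi, h1, h2⟩ := ih
    by_cases h3 : Q (i + 1)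
    · rcases h2 with h2 | h2
      · subst h2
        exact ⟨i + 1, le_rfl, h3, Or.inl rfl⟩
      · exact absurd h3 h2
    · exact ⟨i, by omega, h1, Or.inr h3⟩

lemma deg_single {t : ℕ} (m : Fin t) (i : ℕ) : (Finsupp.single m i : Fin t →₀ ℕ).degree = i := by
  simp

theorem task_LOWR : Pool.Agent.Q6.TY.S_LOWR := by
  intro t p m hre hθ
  obtain ⟨r, hr⟩ : ∃ r : ℝ, r = ‖p m‖ := ⟨_, rfl⟩
  rw [← hr] at hθ ⊢
  have hr0 : 0 < r := by linarith
  refine ⟨1 / (2 * r), by positivity, fun ε hε hε1 n => ?_⟩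
  obtain ⟨η, hη⟩ : ∃ η : ℝ, η = ε / r ^ n := ⟨_, rfl⟩
  have hη0 : 0 < η := by rw [hη]; positivity
  obtain ⟨J, hJ⟩ : ∃ J : ℕ, J = ⌊1 / (2 * η)⌋₊ := ⟨_, rfl⟩
  have hJ1 : (J : ℝ) ≤ 1 / (2 * η) := by rw [hJ]; exact Nat.floor_le (by positivity)
  have hJ2 : 1 / (2 * η) < J + 1 := by rw [hJ]; exact Nat.lt_floor_add_one _
  have hJη : (J : ℝ) * η ≤ 1 / 2 := by
    calc (J : ℝ) * η ≤ 1 / (2 * η) * η := mul_le_mul_of_nonneg_right hJ1 hη0.le
      _ = 1 / 2 := by field_simp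
  refine ⟨J + 1, ?_, ?_⟩
  · have h1 : r ^ n ≤ 1 / (2 * η) := by
      rw [hη, le_div_iff₀ (by positivity)]
      have h2 : 2 * ε ≤ 1 := by
        have h3 : ε * (2 * r) ≤ 1 := by rwa [le_div_iff₀ (by positivity)] at hε1
        nlinarith
      calc r ^ n * (2 * (ε / r ^ n)) = 2 * ε := by field_simp
        _ ≤ 1 := h2
    push_cast
    linarith
  · have hcard : (Finset.range (J + 1)).card = J + 1 := Finset.card_range _
    rw [← hcard]
    refine sep_of hε (Finset.range (J + 1)) (fun j => chi p (((j : ℝ) * η : ℝ) : ℂ))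
      (fun j _ => chi_kill p _) ?_
    intro j hj l hl hjl
    rw [Finset.mem_range] at hj hl
    obtain ⟨δ, hδ⟩ : ∃ δ : ℝ, δ = (j : ℝ) * η - l * η := ⟨_, rfl⟩
    have hδ1 : η ≤ |δ| := by
      have h1 : (1 : ℝ) ≤ |(j : ℝ) - l| := by
        have h2 : (1 : ℤ) ≤ |(j : ℤ) - l| := Int.one_le_abs (by omega)
        exact_mod_cast h2
      rw [hδ, ← sub_mul, abs_mul, abs_of_pos hη0]
      nlinarith
    have hδ2 : |δ| ≤ 1 / 2 := by
      have hj' : (j : ℝ) ≤ J := by exact_mod_cast Nat.lt_succ_iff.1 hj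
      have hl' : (l : ℝ) ≤ J := by exact_mod_cast Nat.lt_succ_iff.1 hl
      have h1 : (j : ℝ) * η ≤ J * η := mul_le_mul_of_nonneg_right hj' hη0.le
      have h2 : (l : ℝ) * η ≤ J * η := mul_le_mul_of_nonneg_right hl' hη0.le
      have h3 : 0 ≤ (j : ℝ) * η := by positivity
      have h4 : 0 ≤ (l : ℝ) * η := by positivity
      rw [hδ, abs_le]
      constructor <;> linarith
    obtain ⟨i, hi, h1, h2⟩ := exists_max (fun i => |δ| * r ^ i ≤ 1 / 2) (by simpa using hδ2) n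
    have hval : |(((((j : ℝ) * η : ℝ) : ℂ) - (((l : ℝ) * η : ℝ) : ℂ)) *
        evh p (monomial (Finsupp.single m i) 1)).re| = |δ| * r ^ i := by
      rw [evh_pow, ← Complex.ofReal_sub, ← hδ, Complex.re_ofReal_mul, abs_mul]
      congr 1
      have h3 : p m = (((p m).re : ℝ) : ℂ) := by
        apply Complex.ext
        · simp
        · rw [Complex.ofReal_im]; exact hre m
      rw [hr, h3, ← Complex.ofReal_pow, Complex.ofReal_re, Complex.norm_real, abs_pow, Real.norm_eq_abs]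
    refine apart_of p (Finsupp.single m i) (by rw [deg_single]; exact hi) ?_ ?_
    · rw [hval]; exact h1
    · rw [hval]
      rcases h2 with h2 | h2
      · subst h2
        calc ε = η * r ^ i := by rw [hη]; field_simp
          _ ≤ |δ| * r ^ i := mul_le_mul_of_nonneg_right hδ1 (by positivity)
      · push Not at h2
        have h4 : 1 / 2 < |δ| * r ^ i * r := by rw [mul_assoc, ← pow_succ]; exact h2
        have h5 : 1 / (2 * r) ≤ |δ| * r ^ i := by
          rw [div_le_iff₀ (by positivity)]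
          linarith
        linarith

/-- a nonreal number: `w` and `w q` have real parts which are not both small -/
lemma re_pair (q : ℂ) (hq : q.im ≠ 0) : ∃ c : ℝ, 0 < c ∧ c ≤ 1 ∧ ∀ w : ℂ,
    c * ‖w‖ ≤ |w.re| ∨ c * ‖w‖ ≤ |(w * q).re| := by
  have hb : 0 < |q.im| := abs_pos.2 hq
  obtain ⟨D, hD⟩ : ∃ D : ℝ, D = 1 + (1 + |q.re|) / |q.im| := ⟨_, rfl⟩
  have hD1 : 1 ≤ D := by
    rw [hD]
    have : 0 ≤ (1 + |q.re|) / |q.im| := by positivity
    linarith
  refine ⟨1 / D, by positivity, ?_, fun w => ?_⟩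
  · rw [div_le_one (by linarith)]; exact hD1
  · by_contra hcon
    push Not at hcon
    obtain ⟨h1, h2⟩ := hcon
    obtain ⟨s, hs⟩ : ∃ s : ℝ, s = 1 / D * ‖w‖ := ⟨_, rfl⟩
    rw [← hs] at h1 h2
    have h3 : |w.im| * |q.im| ≤ |(w * q).re| + |w.re| * |q.re| := by
      rw [← abs_mul, ← abs_mul]
      have e : w.im * q.im = w.re * q.re - (w * q).re := by rw [Complex.mul_re]; ring
      rw [e]
      have := abs_sub (w.re * q.re) ((w * q).re)
      linarith
    have hs0 : 0 < s := lt_of_le_of_lt (abs_nonneg _) h1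
    have h4 : |w.im| < s * ((1 + |q.re|) / |q.im|) := by
      rw [← mul_div_assoc, lt_div_iff₀ hb]
      have h5 : |w.re| * |q.re| ≤ s * |q.re| := mul_le_mul_of_nonneg_right h1.le (abs_nonneg _)
      nlinarith
    have h6 : ‖w‖ ≤ |w.re| + |w.im| := Complex.norm_le_abs_re_add_abs_im w
    have h7 : ‖w‖ = s * D := by rw [hs]; field_simp
    have h8 : s * D = s + s * ((1 + |q.re|) / |q.im|) := by rw [hD]; ring
    linarith

theorem task_LOWC : Pool.Agent.Q6.TY.S_LOWC := by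
  intro t p m him hθ
  obtain ⟨l, hl⟩ := him
  obtain ⟨c0, hc0, hc1, hc⟩ := re_pair (p l) hl
  obtain ⟨r, hr⟩ : ∃ r : ℝ, r = ‖p m‖ := ⟨_, rfl⟩
  rw [← hr] at hθ ⊢
  have hr0 : 0 < r := by linarith
  obtain ⟨K, hK⟩ : ∃ K : ℝ, K = max 1 ‖p l‖ := ⟨_, rfl⟩
  have hK1 : 1 ≤ K := by rw [hK]; exact le_max_left _ _
  have hKl : ‖p l‖ ≤ K := by rw [hK]; exact le_max_right _ _
  have hK0 : 0 < K := by linarith
  refine ⟨c0 / (2 * K * r), by positivity, 1 / 4, by norm_num, fun ε hε hε1 n => ?_⟩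
  rcases Nat.eq_zero_or_pos n with hn | hn
  · subst hn
    refine ⟨1, by norm_num, ?_⟩
    have := sep_of (I := mx p) (n := 0) hε ({0} : Finset ℕ) (fun _ => chi p 0)
      (fun _ _ => chi_kill p 0) (fun i hi j hj hij => by
        rw [Finset.mem_singleton] at hi hj
        exact absurd (hi.trans hj.symm) hij)
    simpa using this
  obtain ⟨N, hN⟩ : ∃ N, n = N + 1 := ⟨n - 1, by omega⟩
  obtain ⟨η, hη⟩ : ∃ η : ℝ, η = ε / (r ^ N * c0) := ⟨_, rfl⟩
  have hη0 : 0 < η := by rw [hη]; positivity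
  obtain ⟨J, hJ⟩ : ∃ J : ℕ, J = ⌊1 / (4 * K * η)⌋₊ := ⟨_, rfl⟩
  have hJ1 : (J : ℝ) ≤ 1 / (4 * K * η) := by rw [hJ]; exact Nat.floor_le (by positivity)
  have hJ2 : 1 / (4 * K * η) < J + 1 := by rw [hJ]; exact Nat.lt_floor_add_one _
  have hJη : (J : ℝ) * η ≤ 1 / (4 * K) := by
    calc (J : ℝ) * η ≤ 1 / (4 * K * η) * η := mul_le_mul_of_nonneg_right hJ1 hη0.le
      _ = 1 / (4 * K) := by field_simp
  refine ⟨(J + 1) * (J + 1), ?_, ?_⟩
  · have h1 : r ^ n / 2 ≤ 1 / (4 * K * η) := by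
      rw [le_div_iff₀ (by positivity)]
      have h3 : ε * (2 * K * r) ≤ c0 := by rwa [le_div_iff₀ (by positivity)] at hε1
      calc r ^ n / 2 * (4 * K * η) = ε * (2 * K * r) / c0 := by
            rw [hη, hN, pow_succ]; field_simp; ring
        _ ≤ 1 := by rw [div_le_one hc0]; exact h3
    have h4 : r ^ n / 2 ≤ J + 1 := by linarith
    have h5 : 0 ≤ r ^ n / 2 := by positivity
    calc 1 / 4 * r ^ (2 * n) = (r ^ n / 2) * (r ^ n / 2) := by rw [mul_comm 2 n, pow_mul]; ring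
      _ ≤ ((J : ℝ) + 1) * ((J : ℝ) + 1) := mul_le_mul h4 h4 h5 (by positivity)
      _ = (((J + 1) * (J + 1) : ℕ) : ℝ) := by push_cast; ring
  · have hcard : (Finset.range (J + 1) ×ˢ Finset.range (J + 1)).card = (J + 1) * (J + 1) := by
      rw [Finset.card_product, Finset.card_range]
    rw [← hcard]
    refine sep_of hε (Finset.range (J + 1) ×ˢ Finset.range (J + 1))
      (fun x => chi p ⟨(x.1 : ℝ) * η, (x.2 : ℝ) * η⟩) (fun j _ => chi_kill p _) ?_
    intro x hx y hy hxy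
    rw [Finset.mem_product, Finset.mem_range, Finset.mem_range] at hx hy
    obtain ⟨δ, hδ⟩ : ∃ δ : ℂ, δ = (⟨(x.1 : ℝ) * η, (x.2 : ℝ) * η⟩ : ℂ) - ⟨(y.1 : ℝ) * η, (y.2 : ℝ) * η⟩ :=
      ⟨_, rfl⟩
    have hre : δ.re = ((x.1 : ℝ) - y.1) * η := by rw [hδ]; simp only [Complex.sub_re]; ring
    have him : δ.im = ((x.2 : ℝ) - y.2) * η := by rw [hδ]; simp only [Complex.sub_im]; ring
    have hint : ∀ a b : ℕ, a ≠ b → (1 : ℝ) ≤ |(a : ℝ) - b| := by
      intro a b hab
      have h2 : (1 : ℤ) ≤ |(a : ℤ) - b| := Int.one_le_abs (by omega)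
      exact_mod_cast h2
    have hδ1 : η ≤ ‖δ‖ := by
      by_cases h1 : x.1 = y.1
      · have h2 : x.2 ≠ y.2 := fun h => hxy (Prod.ext h1 h)
        have h3 := hint _ _ h2
        refine le_trans ?_ (Complex.abs_im_le_norm δ)
        rw [him, abs_mul, abs_of_pos hη0]
        nlinarith
      · have h3 := hint _ _ h1
        refine le_trans ?_ (Complex.abs_re_le_norm δ)
        rw [hre, abs_mul, abs_of_pos hη0]
        nlinarith
    have hbd : ∀ a b : ℕ, a < J + 1 → b < J + 1 → |((a : ℝ) - b) * η| ≤ 1 / (4 * K) := by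
      intro a b ha hb
      have ha' : (a : ℝ) ≤ J := by exact_mod_cast Nat.lt_succ_iff.1 ha
      have hb' : (b : ℝ) ≤ J := by exact_mod_cast Nat.lt_succ_iff.1 hb
      have h1 : (a : ℝ) * η ≤ J * η := mul_le_mul_of_nonneg_right ha' hη0.le
      have h2 : (b : ℝ) * η ≤ J * η := mul_le_mul_of_nonneg_right hb' hη0.le
      have h3 : 0 ≤ (a : ℝ) * η := by positivity
      have h4 : 0 ≤ (b : ℝ) * η := by positivity
      rw [sub_mul, abs_le]
      constructor <;> linarith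
    have hδ2 : ‖δ‖ ≤ 1 / (2 * K) := by
      have h1 := Complex.norm_le_abs_re_add_abs_im δ
      have h2 := hbd x.1 y.1 hx.1 hy.1
      have h3 := hbd x.2 y.2 hx.2 hy.2
      rw [← hre] at h2
      rw [← him] at h3
      have h4 : 1 / (4 * K) + 1 / (4 * K) = 1 / (2 * K) := by field_simp; ring
      linarith
    obtain ⟨i, hi, h1, h2⟩ := exists_max (fun i => ‖δ‖ * r ^ i ≤ 1 / (2 * K)) (by simpa using hδ2) N
    obtain ⟨w, hw⟩ : ∃ w : ℂ, w = δ * p m ^ i := ⟨_, rfl⟩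
    have hwn : ‖w‖ = ‖δ‖ * r ^ i := by rw [hw, norm_mul, norm_pow, ← hr]
    rw [← hwn] at h1
    have hw1 : |w.re| ≤ 1 / 2 := by
      refine (Complex.abs_re_le_norm w).trans (h1.trans ?_)
      exact one_div_le_one_div_of_le (by norm_num) (by linarith)
    have hw2 : |(w * p l).re| ≤ 1 / 2 := by
      refine (Complex.abs_re_le_norm _).trans ?_
      rw [norm_mul]
      calc ‖w‖ * ‖p l‖ ≤ 1 / (2 * K) * K := mul_le_mul h1 hKl (norm_nonneg _) (by positivity)
        _ = 1 / 2 := by field_simp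
    have hw3 : ε ≤ c0 * ‖w‖ := by
      rcases h2 with h2 | h2
      · subst h2
        calc ε = c0 * (η * r ^ i) := by rw [hη]; field_simp
          _ ≤ c0 * ‖w‖ := by
            rw [hwn]
            exact mul_le_mul_of_nonneg_left (mul_le_mul_of_nonneg_right hδ1 (by positivity)) hc0.le
      · push Not at h2
        have h4 : 1 / (2 * K) < ‖w‖ * r := by rw [hwn, mul_assoc, ← pow_succ]; exact h2
        have h5 : 1 / (2 * K * r) ≤ ‖w‖ := by
          rw [div_le_iff₀ (by positivity)]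
          rw [div_lt_iff₀ (by positivity)] at h4
          linarith
        calc ε ≤ c0 / (2 * K * r) := hε1
          _ = c0 * (1 / (2 * K * r)) := by ring
          _ ≤ c0 * ‖w‖ := mul_le_mul_of_nonneg_left h5 hc0.le
    rcases hc w with h3 | h3
    · refine apart_of p (Finsupp.single m i) (by rw [deg_single]; omega) ?_ ?_
      · rw [evh_pow, ← hδ, ← hw]; exact hw1
      · rw [evh_pow, ← hδ, ← hw]; exact hw3.trans h3
    · refine apart_of p (Finsupp.single m i + Finsupp.single l 1)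
        (by rw [map_add, deg_single, deg_single]; omega) ?_ ?_
      · rw [evh_pow_mul, ← hδ, ← mul_assoc, ← hw]; exact hw2
      · rw [evh_pow_mul, ← hδ, ← mul_assoc, ← hw]; exact hw3.trans h3

end Pool.Agent.Q261.TY
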