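import Pool.Agent.Q6.TY.Stm3
import Pool.Agent.Q121.TY.TORC

set_option autoImplicit false
set_option maxHeartbeats 400000

/-! # Project TY: JOB TORCV (generalises task_TORC of helper121) -/

namespace Pool.Agent.Q261.TY

open MvPolynomial Pool.Agent.Q6.TY
open Pool.Agent.Q121.TY (common_den qv dif_eq int_map clip clip_inj chi_add chi_smul chi_sum
  evh_monomial zd chi_zd mono_ne)

/-- integral vectors of `V` are killed by `p` after multiplication by some number -/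
lemma int_tors {t : ℕ} {p : Fin t → ℂ} (hp : ∀ i, p i ≠ 0) (V : Submodule ℚ (Fin t → ℚ))
    (hV : ∀ u v : Fin t →₀ ℕ, dif u v ∈ V → ∃ k : ℕ, 1 ≤ k ∧
      (∏ i, p i ^ u i) ^ k = (∏ i, p i ^ v i) ^ k) (z : Fin t → ℤ)
    (hz : (fun i => (z i : ℚ)) ∈ V) : ∃ k : ℕ, 1 ≤ k ∧ Pool.Agent.Q121.TY.chi p z ^ k = 1 := by
  obtain ⟨u, hu⟩ : ∃ u : Fin t →₀ ℕ, ∀ i, u i = (z i).toNat :=
    ⟨Finsupp.equivFunOnFinite.symm fun i => (z i).toNat, fun i => rfl⟩
  obtain ⟨v, hv⟩ : ∃ v : Fin t →₀ ℕ, ∀ i, v i = (-z i).toNat :=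
    ⟨Finsupp.equivFunOnFinite.symm fun i => (-z i).toNat, fun i => rfl⟩
  have h1 : zd u v = z := by
    funext i
    unfold zd
    rw [hu, hv]
    omega
  have h2 : dif u v ∈ V := by
    have h3 : dif u v = fun i => (z i : ℚ) := by
      funext i
      rw [← h1]
      unfold dif zd
      push_cast
      rfl
    rw [h3]
    exact hz
  obtain ⟨k, hk, hk2⟩ := hV u v h2
  refine ⟨k, hk, ?_⟩
  have h4 := chi_zd hp u v
  rw [h1] at h4
  have h5 : (∏ j, p j ^ (v j)) ^ k ≠ 0 := pow_ne_zero _ (mono_ne hp v)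
  apply mul_right_cancel₀ h5
  rw [← mul_pow, h4, hk2, one_mul]

theorem task_TORCV : S_BND → S_TORP → S_TORCV := by
  classical
  intro hB hT t p V hp hV ε hε
  obtain ⟨a, ha⟩ : ∃ a : ℕ, a = Module.finrank ℚ V := ⟨_, rfl⟩
  rw [← ha]
  -- a basis of `V`
  obtain ⟨B, -⟩ : ∃ B : Module.Basis (Fin a) ℚ V, True :=
    ⟨(Module.finBasis ℚ V).reindex (finCongr ha.symm), trivial⟩
  obtain ⟨D₀, hD₀, hbz⟩ := common_den (fun x : Fin a × Fin t => (B x.1 : Fin t → ℚ) x.2)
  choose bz' hbz' using hbz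
  obtain ⟨bz, hbz⟩ : ∃ bz : Fin a → Fin t → ℤ, ∀ b i, (D₀ : ℚ) * (B b : Fin t → ℚ) i = bz b i :=
    ⟨fun b i => bz' (b, i), fun b i => hbz' (b, i)⟩
  have hD₀' : (D₀ : ℚ) ≠ 0 := by exact_mod_cast hD₀.ne'
  have hbV : ∀ b, (fun i => (bz b i : ℚ)) ∈ V := by
    intro b
    have h1 : (fun i => (bz b i : ℚ)) = (D₀ : ℚ) • (B b : Fin t → ℚ) := by
      funext i
      rw [← hbz b i]
      rfl
    rw [h1]
    exact V.smul_mem _ (B b).2
  choose kk hkk1 hkk2 using fun b => int_tors hp V hV (bz b) (hbV b)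
  obtain ⟨K, hK⟩ : ∃ K : ℕ, K = ∏ b, kk b := ⟨_, rfl⟩
  have hK0 : 0 < K := by rw [hK]; exact Finset.prod_pos fun b _ => hkk1 b
  have hbK : ∀ b, Pool.Agent.Q121.TY.chi p (bz b) ^ K = 1 := by
    intro b
    obtain ⟨c, hc⟩ : kk b ∣ K := by rw [hK]; exact Finset.dvd_prod_of_mem _ (Finset.mem_univ b)
    rw [hc, pow_mul, hkk2, one_pow]
  -- a linear section
  obtain ⟨lam, hlam⟩ : ∃ lam : (Fin t → ℚ) →ₗ[ℚ] (Fin a → ℚ), ∀ w ∈ V, ∀ i,
      ∑ b, lam w b * (bz b i : ℚ) = w i := by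
    obtain ⟨g', hg'⟩ := LinearMap.exists_extend (B.equivFun : V →ₗ[ℚ] (Fin a → ℚ))
    refine ⟨(D₀ : ℚ)⁻¹ • g', fun w hw i => ?_⟩
    have h1 : g' w = B.equivFun ⟨w, hw⟩ := by
      have := LinearMap.congr_fun hg' ⟨w, hw⟩
      exact this
    have h2 := congrArg (fun x : V => (x : Fin t → ℚ) i) (B.sum_equivFun ⟨w, hw⟩)
    simp only [Submodule.coe_sum, Submodule.coe_smul, Finset.sum_apply, Pi.smul_apply,
      smul_eq_mul] at h2
    rw [← h1] at h2
    rw [← h2]
    refine Finset.sum_congr rfl fun b _ => ?_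
    rw [LinearMap.smul_apply, Pi.smul_apply, smul_eq_mul, ← hbz b i]
    field_simp
  obtain ⟨D, hD, z, hz⟩ := int_map lam
  -- the quotient map
  have hfr : Module.finrank ℚ ((Fin t → ℚ) ⧸ V) = t - a := by
    have h1 := Submodule.finrank_quotient_add_finrank V
    rw [Module.finrank_fin_fun] at h1
    omega
  let e : ((Fin t → ℚ) ⧸ V) ≃ₗ[ℚ] (Fin (t - a) → ℚ) :=
    LinearEquiv.ofFinrankEq _ _ (by rw [hfr, Module.finrank_fin_fun])
  obtain ⟨D', hD', y, hy⟩ := int_map (e.toLinearMap.comp V.mkQ)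
  obtain ⟨M, hM⟩ : ∃ M : ℕ, ∀ j c, |y j c| ≤ M := by
    refine ⟨∑ j, ∑ c, (y j c).natAbs, fun j c => ?_⟩
    have h1 : (y j c).natAbs ≤ ∑ c, (y j c).natAbs :=
      Finset.single_le_sum (f := fun c => (y j c).natAbs) (fun _ _ => Nat.zero_le _)
        (Finset.mem_univ c)
    have h2 : ∑ c, (y j c).natAbs ≤ ∑ j, ∑ c, (y j c).natAbs :=
      Finset.single_le_sum (f := fun j => ∑ c, (y j c).natAbs) (fun _ _ => Nat.zero_le _)
        (Finset.mem_univ j)
    rw [Int.abs_eq_natAbs]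
    exact_mod_cast h1.trans h2
  have : NeZero (K * D) := ⟨(Nat.mul_pos hK0 hD).ne'⟩
  set L : ℝ := Real.log ((⌊1 / ε⌋₊ + 1 : ℕ) : ℝ) with hLdef
  have hL0 : 0 ≤ L := Real.log_nonneg (by exact_mod_cast Nat.succ_le_succ (Nat.zero_le _))
  refine ⟨(2 * M + 1 : ℝ) ^ (t - a) * (K * D : ℝ) ^ a * L, fun n N hN => ?_⟩
  have hbound := hB t (tor p V) n ε hε
    ((Fin (t - a) → Fin (2 * (M * n) + 1)) × (Fin a → ZMod (K * D)))
    (fun u => (fun c => clip (M * n) (∑ j, (u j : ℤ) * y j c),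
      fun b => ((∑ j, (u j : ℤ) * z j b : ℤ) : ZMod (K * D)))) (by
    intro u v hu hv huv
    rw [Prod.mk.injEq] at huv
    obtain ⟨h1, h2⟩ := huv
    have habs : ∀ u : Fin t →₀ ℕ, u.degree ≤ n → ∀ c, |∑ j, (u j : ℤ) * y j c| ≤ (M * n : ℕ) := by
      intro u hu c
      calc |∑ j, (u j : ℤ) * y j c| ≤ ∑ j, |(u j : ℤ) * y j c| := Finset.abs_sum_le_sum_abs _ _
        _ ≤ ∑ j, (u j : ℤ) * M := by
            refine Finset.sum_le_sum fun j _ => ?_
            rw [abs_mul, abs_of_nonneg (Int.natCast_nonneg _)]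
            exact mul_le_mul_of_nonneg_left (hM j c) (Int.natCast_nonneg _)
        _ = (u.degree : ℤ) * M := by
            rw [← Finset.sum_mul, Finsupp.degree_eq_sum]; push_cast; rfl
        _ ≤ (M * n : ℕ) := by
            push_cast
            rw [mul_comm]
            exact mul_le_mul_of_nonneg_left (by exact_mod_cast hu) (Int.natCast_nonneg _)
    -- same class modulo `V`
    have hmem : dif u v ∈ V := by
      have h3 : (e.toLinearMap.comp V.mkQ) (dif u v) = 0 := by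
        rw [dif_eq, map_sub]
        ext c
        have h4 := clip_inj (habs u hu c) (habs v hv c) (congrFun h1 c)
        have h5 := hy u c
        have h6 := hy v c
        rw [h4] at h5
        have h7 : (D' : ℚ) * (e.toLinearMap.comp V.mkQ) (qv u) c =
            (D' : ℚ) * (e.toLinearMap.comp V.mkQ) (qv v) c := h5.trans h6.symm
        have h8 : (D' : ℚ) ≠ 0 := by exact_mod_cast hD'.ne'
        have h9 := mul_left_cancel₀ h8 h7
        rw [Pi.sub_apply, h9, sub_self]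
        rfl
      have h4 : e (V.mkQ (dif u v)) = 0 := h3
      rw [LinearEquiv.map_eq_zero_iff] at h4
      exact (Submodule.Quotient.mk_eq_zero V).mp h4
    -- the coefficients are multiples of `K`
    have hm : ∀ b : Fin a, ∃ m : ℤ, lam (dif u v) b = K * m := by
      intro b
      have h3 : ((∑ j, (u j : ℤ) * z j b : ℤ) : ZMod (K * D)) =
          ((∑ j, (v j : ℤ) * z j b : ℤ) : ZMod (K * D)) := congrFun h2 b
      rw [ZMod.intCast_eq_intCast_iff_dvd_sub] at h3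
      obtain ⟨m, hm⟩ := h3
      refine ⟨-m, ?_⟩
      have h4 := hz u b
      have h5 := hz v b
      have h6 : (D : ℚ) * lam (dif u v) b = D * (K * ((-m : ℤ) : ℚ)) := by
        rw [dif_eq, map_sub, Pi.sub_apply, mul_sub, h4, h5, ← Int.cast_sub]
        have : (∑ j, (u j : ℤ) * z j b) - ∑ j, (v j : ℤ) * z j b = (D : ℤ) * (K * (-m)) := by
          have hm' := hm
          push_cast at hm'
          linear_combination -hm'
        rw [this]
        push_cast
        ring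
      have h8 : (D : ℚ) ≠ 0 := by exact_mod_cast hD.ne'
      exact mul_left_cancel₀ h8 h6
    choose m hm using hm
    have hzd : zd u v = ∑ b : Fin a, ((K : ℤ) * m b) • bz b := by
      ext i
      have h3 := hlam _ hmem i
      rw [Finset.sum_apply]
      have h4 : (zd u v i : ℚ) = dif u v i := by simp [zd, dif]
      have h5 : ((∑ b : Fin a, (((K : ℤ) * m b) • bz b) i : ℤ) : ℚ) =
          ∑ b : Fin a, lam (dif u v) b * (bz b i : ℚ) := by
        push_cast
        refine Finset.sum_congr rfl fun b _ => ?_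
        rw [Pi.smul_apply, smul_eq_mul, hm b]
        push_cast
        ring
      have h6 : (zd u v i : ℚ) = ((∑ b : Fin a, (((K : ℤ) * m b) • bz b) i : ℤ) : ℚ) := by
        rw [h4, h5, h3]
      exact_mod_cast h6
    have hchi : Pool.Agent.Q121.TY.chi p (zd u v) = 1 := by
      rw [hzd, chi_sum hp]
      apply Finset.prod_eq_one
      intro b _
      rw [chi_smul, zpow_mul]
      have : Pool.Agent.Q121.TY.chi p (bz b) ^ (K : ℤ) = 1 := by
        rw [zpow_natCast]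
        exact hbK b
      rw [this, one_zpow]
    have hmx : (monomial u 1 - monomial v 1 : P t) ∈ mx p := by
      show evh p (monomial u 1 - monomial v 1) = 0
      rw [map_sub, evh_monomial, evh_monomial, ← chi_zd hp u v, hchi]
      ring
    exact (hT t p hp).2.2.2.2.2.1 V u v 1 hmem hmx) N hN
  have hcard : Fintype.card ((Fin (t - a) → Fin (2 * (M * n) + 1)) × (Fin a → ZMod (K * D))) =
      (2 * (M * n) + 1) ^ (t - a) * (K * D) ^ a := by
    rw [Fintype.card_prod, Fintype.card_fun, Fintype.card_fun, Fintype.card_fin,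
      Fintype.card_fin, ZMod.card, Fintype.card_fin]
  rw [hcard] at hbound
  have h1 : Real.log N ≤ ((2 * (M * n) + 1) ^ (t - a) * (K * D) ^ a : ℕ) * L := by
    rcases Nat.eq_zero_or_pos N with rfl | hN0
    · rw [Nat.cast_zero, Real.log_zero]
      positivity
    · have h2 : Real.log N ≤ Real.log (((⌊1 / ε⌋₊ + 1) ^
          ((2 * (M * n) + 1) ^ (t - a) * (K * D) ^ a) : ℕ) : ℝ) :=
        Real.log_le_log (by exact_mod_cast hN0) (by exact_mod_cast hbound)
      rw [Nat.cast_pow, Real.log_pow] at h2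
      exact h2
  refine h1.trans ?_
  have h2 : ((2 * (M * n) + 1 : ℕ) : ℝ) ≤ (2 * M + 1) * ((n : ℝ) + 1) := by
    push_cast
    have : (0 : ℝ) ≤ M := Nat.cast_nonneg _
    have : (0 : ℝ) ≤ n := Nat.cast_nonneg _
    nlinarith
  have h3 : ((2 * (M * n) + 1 : ℕ) : ℝ) ^ (t - a) ≤ ((2 * M + 1) * ((n : ℝ) + 1)) ^ (t - a) :=
    pow_le_pow_left₀ (Nat.cast_nonneg _) h2 _
  rw [mul_pow] at h3
  push_cast at h3 ⊢
  have h4 : (0 : ℝ) ≤ (K * D : ℝ) ^ a * L := by positivity
  calc (2 * ((M : ℝ) * n) + 1) ^ (t - a) * (K * D : ℝ) ^ a * L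
      = (2 * ((M : ℝ) * n) + 1) ^ (t - a) * ((K * D : ℝ) ^ a * L) := by ring
    _ ≤ ((2 * M + 1 : ℝ) ^ (t - a) * ((n : ℝ) + 1) ^ (t - a)) * ((K * D : ℝ) ^ a * L) :=
        mul_le_mul_of_nonneg_right h3 h4
    _ = _ := by ring

end Pool.Agent.Q261.TY
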